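import Mathlib
import Pool.Agent.H168DD.TB
import Pool.Agent.Results.MP_a87573_co.DistinctRoots

/-!
Edge coverings of connected graphs of minimum degree two: counting edges at a Tutte-Berge barrier.
-/

set_option autoImplicit false
set_option linter.unusedSectionVars false
set_option linter.unusedVariables false

namespace Pool.Agent.L0h68.EC

open Finset Pool.Agent.Results.MP_a87573_co.DistinctRoots

variable {V : Type} [Fintype V] [DecidableEq V] (G : SimpleGraph V) [DecidableRel G.Adj]

/-- edges meeting `O` -/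
def tch (O : Finset V) : Finset (Sym2 V) := {e ∈ G.edgeFinset | ∃ v ∈ O, v ∈ e}

/-- edges meeting `O` in exactly one vertex -/
def bd (O : Finset V) : Finset (Sym2 V) := {e ∈ tch G O | ∃ v ∉ O, v ∈ e}

variable {G}

lemma mem_tch {O : Finset V} {e : Sym2 V} : e ∈ tch G O ↔ e ∈ G.edgeFinset ∧ ∃ v ∈ O, v ∈ e := by
  simp [tch]

/-- number of vertices of `O` on an edge -/
lemma cnt_le (O : Finset V) (e : Sym2 V) (he : e ∈ G.edgeFinset) :
    #{v ∈ O | v ∈ e} ≤ 2 := by
  induction e with
  | h x y =>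
    have : ({v ∈ O | v ∈ s(x, y)} : Finset V) ⊆ {x, y} := by
      intro v hv
      simpa using (mem_filter.1 hv).2
    exact (card_le_card this).trans card_le_two

lemma cnt_bd (O : Finset V) (e : Sym2 V) (he : e ∈ bd G O) :
    #{v ∈ O | v ∈ e} ≤ 1 := by
  obtain ⟨h1, w, hw, hwe⟩ := mem_filter.1 he
  induction e with
  | h x y =>
    have hxy : x ≠ y := by
      have := (mem_tch.1 h1).1
      rw [SimpleGraph.mem_edgeFinset, SimpleGraph.mem_edgeSet] at this
      exact this.ne
    rw [Sym2.mem_iff] at hwe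
    rcases hwe with rfl | rfl
    · have : ({v ∈ O | v ∈ s(w, y)} : Finset V) ⊆ {y} := by
        intro v hv
        obtain ⟨hv1, hv2⟩ := mem_filter.1 hv
        rw [Sym2.mem_iff] at hv2
        rcases hv2 with rfl | rfl
        · exact absurd hv1 hw
        · exact mem_singleton_self _
      exact (card_le_card this).trans (by simp)
    · have : ({v ∈ O | v ∈ s(x, w)} : Finset V) ⊆ {x} := by
        intro v hv
        obtain ⟨hv1, hv2⟩ := mem_filter.1 hv
        rw [Sym2.mem_iff] at hv2
        rcases hv2 with rfl | rfl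
        · exact mem_singleton_self _
        · exact absurd hv1 hw
      exact (card_le_card this).trans (by simp)

/-- double counting -/
lemma sum_deg (O : Finset V) :
    ∑ v ∈ O, G.degree v + #(bd G O) ≤ 2 * #(tch G O) := by
  have h1 : ∑ v ∈ O, G.degree v = ∑ e ∈ tch G O, #{v ∈ O | v ∈ e} := by
    have h2 : ∀ v ∈ O, G.degree v = #{e ∈ tch G O | v ∈ e} := by
      intro v hv
      rw [← SimpleGraph.card_incidenceFinset_eq_degree]
      congr 1
      ext e
      rw [SimpleGraph.mem_incidenceFinset, mem_filter, mem_tch, SimpleGraph.mem_edgeFinset]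
      constructor
      · rintro ⟨h, h'⟩; exact ⟨⟨h, v, hv, h'⟩, h'⟩
      · rintro ⟨⟨h, _⟩, h'⟩; exact ⟨h, h'⟩
    rw [sum_congr rfl h2]
    simp only [card_filter]
    rw [sum_comm]
  rw [h1]
  have h3 : #(bd G O) = ∑ e ∈ tch G O, if e ∈ bd G O then 1 else 0 := by
    rw [← card_filter]
    congr 1
    ext e
    simp only [mem_filter, bd]
    tauto
  rw [h3, ← sum_add_distrib, mul_comm, ← smul_eq_mul, ← sum_const]
  refine sum_le_sum fun e he => ?_
  split_ifs with h
  · have := cnt_bd O e h
    omega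
  · have := cnt_le O e (mem_tch.1 he).1
    omega

/-- a proper nonempty set has a boundary edge -/
lemma bd_nonempty (hG : G.Connected) (O : Finset V) (h0 : O.Nonempty) (h1 : O ≠ univ) :
    0 < #(bd G O) := by
  obtain ⟨x, hx⟩ := h0
  obtain ⟨y, hy⟩ : ∃ y, y ∉ O := by
    by_contra h
    push Not at h
    exact h1 (eq_univ_iff_forall.2 h)
  obtain ⟨p⟩ := hG.preconnected x y
  have : ∃ a b, G.Adj a b ∧ a ∈ O ∧ b ∉ O := by
    clear h1
    induction p with
    | nil => exact absurd hx hy
    | cons h q ih =>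
      rename_i u v w
      by_cases hv : v ∈ O
      · exact ih hv hy
      · exact ⟨u, v, h, hx, hv⟩
  obtain ⟨a, b, hab, ha, hb⟩ := this
  refine card_pos.2 ⟨s(a, b), mem_filter.2 ⟨mem_tch.2 ⟨?_, a, ha, by simp⟩, b, hb, by simp⟩⟩
  rw [SimpleGraph.mem_edgeFinset]
  exact hab

lemma tch_card (hG : G.Connected) (hd : ∀ v, 2 ≤ G.degree v) (O : Finset V) (h0 : O.Nonempty)
    (h1 : O ≠ univ) : #O + 1 ≤ #(tch G O) := by
  have h2 := sum_deg (G := G) O
  have h3 := bd_nonempty hG O h0 h1
  have h4 : 2 * #O ≤ ∑ v ∈ O, G.degree v := by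
    rw [mul_comm, ← smul_eq_mul, ← sum_const]
    exact sum_le_sum fun v _ => hd v
  omega

/-- from the matching form of the Tutte-Berge theorem to small edge coverings -/
lemma small_cover (hd : ∀ v, 2 ≤ G.degree v) (U : Finset V) (m : V → V)
    (hm : ∀ x ∈ univ \ U, m x ∈ univ \ U ∧ m (m x) = x ∧ G.Adj x (m x)) :
    ∃ S ⊆ G.edgeFinset, IsEdgeCovering S ∧ 2 * #S ≤ Fintype.card V + #U := by
  have hnb : ∀ v, ∃ w, G.Adj v w := by
    intro v
    have := hd v
    rw [← SimpleGraph.card_neighborFinset_eq_degree] at this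
    obtain ⟨w, hw⟩ := card_pos.1 (by omega : 0 < #(G.neighborFinset v))
    exact ⟨w, by simpa using hw⟩
  choose nb hnb using hnb
  have himg : 2 * #((univ \ U).image fun x => s(x, m x)) ≤ #(univ \ U) := by
    rw [card_eq_sum_card_image (fun x => s(x, m x)) (univ \ U), mul_comm, ← smul_eq_mul,
      ← sum_const]
    refine sum_le_sum fun e he => ?_
    obtain ⟨x, hx, rfl⟩ := mem_image.1 he
    obtain ⟨h1, h2, h3⟩ := hm x hx
    have : ({x, m x} : Finset V) ⊆ {y ∈ univ \ U | s(y, m y) = s(x, m x)} := by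
      intro y hy
      rw [mem_insert, mem_singleton] at hy
      rcases hy with rfl | rfl
      · exact mem_filter.2 ⟨hx, rfl⟩
      · refine mem_filter.2 ⟨h1, ?_⟩
        rw [h2]
        exact Sym2.eq_swap
    refine le_trans ?_ (card_le_card this)
    rw [card_pair h3.ne]
  refine ⟨(univ \ U).image (fun x => s(x, m x)) ∪ U.image (fun x => s(x, nb x)), ?_, ?_, ?_⟩
  · intro e he
    rw [mem_union, mem_image, mem_image] at he
    rw [SimpleGraph.mem_edgeFinset]
    rcases he with ⟨x, hx, rfl⟩ | ⟨x, hx, rfl⟩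
    · exact (hm x hx).2.2
    · exact hnb x
  · intro v
    by_cases hv : v ∈ U
    · exact ⟨s(v, nb v), mem_union_right _ (mem_image.2 ⟨v, hv, rfl⟩), by simp⟩
    · exact ⟨s(v, m v), mem_union_left _ (mem_image.2 ⟨v, by simp [hv], rfl⟩), by simp⟩
  · have h1 := card_union_le ((univ \ U).image (fun x => s(x, m x))) (U.image (fun x => s(x, nb x)))
    have h2 : #(U.image (fun x => s(x, nb x))) ≤ #U := card_image_le
    have h3 : #(univ \ U) = Fintype.card V - #U := by
      rw [card_sdiff_of_subset (subset_univ _), card_univ]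
    have h4 : #U ≤ Fintype.card V := card_le_univ U
    omega

/-- a partition of the complement of `A` into nonempty closed sets -/
structure Part (G : SimpleGraph V) (A : Finset V) (F : Finset (Finset V)) : Prop where
  ne : ∀ O ∈ F, O.Nonempty
  disj : ∀ O ∈ F, ∀ O' ∈ F, O ≠ O' → Disjoint O O'
  cov : F.biUnion id = univ \ A
  clos : ∀ O ∈ F, ∀ x ∈ O, ∀ y, G.Adj x y → y ∈ O ∨ y ∈ A

/-- Tutte-Berge for edge coverings -/
theorem barrier (hd : ∀ v, 2 ≤ G.degree v) (k : ℕ)
    (hk : ∀ S ⊆ G.edgeFinset, IsEdgeCovering S → k ≤ #S) (h2 : Fintype.card V + 2 ≤ 2 * k) :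
    ∃ (A : Finset V) (F : Finset (Finset V)), Part G A F ∧
      (((∀ O ∈ F, Odd #O) ∧ #A + 2 * k ≤ #F + Fintype.card V) ∨
        #A + 2 * k + 1 ≤ #F + Fintype.card V) := by
  have hcon : ¬ ∀ (A : Finset V) (F : Finset (Finset V)), A ⊆ univ → (∀ O ∈ F, Odd O.card) →
      (∀ O ∈ F, ∀ O' ∈ F, O ≠ O' → Disjoint O O') → (∀ O ∈ F, O ⊆ univ \ A) →
      (∀ O ∈ F, ∀ x ∈ O, ∀ y ∈ univ, G.Adj x y → y ∈ O ∨ y ∈ A) →
      F.card ≤ A.card + (2 * k - 2 - Fintype.card V) := by
    intro h
    obtain ⟨U, m, hU, hUl, hm⟩ := H168DD.tutte_berge G univ (2 * k - 2 - Fintype.card V)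
      ⟨k - 1, by rw [card_univ]; omega⟩ h
    obtain ⟨S, hS, hc, hle⟩ := small_cover hd U m hm
    have := hk S hS hc
    omega
  push Not at hcon
  obtain ⟨A, F, -, hodd, hdisj, hsub, hclos, hlt⟩ := hcon
  have hpar : (∑ O ∈ F, #O) % 2 = #F % 2 := by
    have h1 : ∀ O ∈ F, #O % 2 = 1 := fun O hO => Nat.odd_iff.1 (hodd O hO)
    rw [Finset.sum_nat_mod, Finset.sum_congr rfl h1]
    simp
  have hucard : #(F.biUnion id) = ∑ O ∈ F, #O := by
    rw [card_biUnion]
    · rfl
    · intro O hO O' hO' hne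
      exact hdisj O hO O' hO' hne
  have husub : F.biUnion id ⊆ univ \ A := by
    intro x hx
    obtain ⟨O, hO, hxO⟩ := mem_biUnion.1 hx
    exact hsub O hO hxO
  have hFne : ∀ O ∈ F, O.Nonempty := by
    intro O hO
    rw [← card_pos]
    exact (hodd O hO).pos
  obtain ⟨R, hR⟩ : ∃ R, R = (univ \ A) \ F.biUnion id := ⟨_, rfl⟩
  have hRc : #R + ∑ O ∈ F, #O + #A = Fintype.card V := by
    have e1 : #R = #(univ \ A) - #(F.biUnion id) := by
      rw [hR, card_sdiff_of_subset husub]
    have e2 : #(univ \ A) = Fintype.card V - #A := by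
      rw [card_sdiff_of_subset (subset_univ _), card_univ]
    have e3 := card_le_card husub
    have e4 : #A ≤ Fintype.card V := card_le_univ A
    omega
  by_cases hRe : R = ∅
  · refine ⟨A, F, ⟨hFne, hdisj, ?_, ?_⟩, Or.inl ⟨hodd, ?_⟩⟩
    · refine husub.antisymm ?_
      rw [hR, sdiff_eq_empty_iff_subset] at hRe
      exact hRe
    · intro O hO x hx y hxy
      exact hclos O hO x hx y (mem_univ _) hxy
    · rw [hRe, card_empty] at hRc
      omega
  · have hRne : R.Nonempty := nonempty_iff_ne_empty.2 hRe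
    have hRd : ∀ O ∈ F, Disjoint R O := by
      intro O hO
      rw [disjoint_left]
      intro x hx hxO
      rw [hR, mem_sdiff] at hx
      exact hx.2 (mem_biUnion.2 ⟨O, hO, hxO⟩)
    have hRF : R ∉ F := by
      intro h
      obtain ⟨x, hx⟩ := hRne
      exact disjoint_left.1 (hRd R h) hx hx
    refine ⟨A, insert R F, ⟨?_, ?_, ?_, ?_⟩, ?_⟩
    · intro O hO
      rcases mem_insert.1 hO with rfl | h
      · exact hRne
      · exact hFne O h
    · intro O hO O' hO' hne
      rcases mem_insert.1 hO with h7 | hO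
      · rcases mem_insert.1 hO' with h8 | hO'
        · exact absurd (h7.trans h8.symm) hne
        · rw [h7]; exact hRd O' hO'
      · rcases mem_insert.1 hO' with h8 | hO'
        · rw [h8]; exact (hRd O hO).symm
        · exact hdisj O hO O' hO' hne
    · rw [biUnion_insert]
      simp only [id]
      rw [hR]
      exact sdiff_union_of_subset husub
    · intro O hO x hx y hxy
      rcases mem_insert.1 hO with h7 | hO
      · rw [h7] at hx ⊢
        by_cases hyA : y ∈ A
        · exact Or.inr hyA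
        · left
          rw [hR, mem_sdiff, mem_sdiff]
          refine ⟨⟨mem_univ _, hyA⟩, ?_⟩
          intro hyU
          obtain ⟨O', hO', hyO'⟩ := mem_biUnion.1 hyU
          rw [hR, mem_sdiff, mem_sdiff] at hx
          rcases hclos O' hO' y hyO' x (mem_univ _) hxy.symm with h9 | h9
          · exact hx.2 (mem_biUnion.2 ⟨O', hO', h9⟩)
          · exact hx.1.2 h9
      · exact hclos O hO x hx y (mem_univ _) hxy
    · rw [card_insert_of_notMem hRF]
      by_cases hRo : Odd #R
      · left
        refine ⟨?_, by omega⟩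
        intro O hO
        rcases mem_insert.1 hO with rfl | h
        · exact hRo
        · exact hodd O h
      · right
        rw [Nat.odd_iff] at hRo
        omega

end Pool.Agent.L0h68.EC
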