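import Pool.Agent.L0h68.EC.Strict

set_option autoImplicit false
set_option linter.unusedSectionVars false
set_option linter.unusedVariables false

namespace Pool.Agent.L0h68.EC

open Finset Polynomial Pool.Agent.Results.MP_a87573_co.DistinctRoots

variable {V : Type} [Fintype V] [DecidableEq V] (G : SimpleGraph V) [DecidableRel G.Adj]

theorem monic_poly (hδ : 0 < G.minDegree) (hm : G.minDegree ≤ #G.edgeFinset) :
    (edgeCoverPoly G).Monic ∧ (edgeCoverPoly G).natDegree = #G.edgeFinset := by
  have hlow := natDegree_lower G hm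
  have hmonic : ((1 + X : ℂ[X]) ^ #G.edgeFinset).Monic := by
    rw [add_comm]; exact (monic_X_add_C (1 : ℂ)).pow _
  have hdlt : (lower G).degree < ((1 + X : ℂ[X]) ^ #G.edgeFinset).degree := by
    rw [degree_eq_natDegree hmonic.ne_zero, natDegree_one_add_X_pow]
    refine lt_of_le_of_lt degree_le_natDegree ?_
    exact_mod_cast (by omega : (lower G).natDegree < #G.edgeFinset)
  constructor
  · rw [poly_split]; exact hmonic.add_of_left hdlt
  · rw [poly_split, natDegree_eq_of_degree_eq (degree_add_eq_left_of_degree_lt hdlt),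
      natDegree_one_add_X_pow]

/-- the auxiliary polynomial -/
noncomputable def auxT : ℂ[X] :=
  (1 + X) * derivative (edgeCoverPoly G) - C (#G.edgeFinset : ℂ) * edgeCoverPoly G

theorem auxT_eq : auxT G = ∑ A ∈ (univ : Finset (Finset V)).erase ∅,
      C ((-1) ^ #A * ((#(away G A) : ℂ) - #G.edgeFinset)) * (1 + X) ^ #(away G A) := by
  have hTterm : ∀ k : ℕ, (1 + X) * derivative ((1 + X : ℂ[X]) ^ k) = C (k : ℂ) * (1 + X) ^ k := by
    intro k
    rw [derivative_pow]
    rcases k with _ | k
    · simp
    · simp only [Nat.add_sub_cancel, derivative_add, derivative_one, derivative_X, zero_add,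
        mul_one]
      ring
  have hl : (1 + X) * derivative (lower G) - C (#G.edgeFinset : ℂ) * lower G =
      ∑ A ∈ (univ : Finset (Finset V)).erase ∅,
        C ((-1) ^ #A * ((#(away G A) : ℂ) - #G.edgeFinset)) * (1 + X) ^ #(away G A) := by
    unfold lower
    rw [derivative_sum, mul_sum, mul_sum, ← sum_sub_distrib]
    refine sum_congr rfl fun A _ => ?_
    have hc : ((-1 : ℂ[X]) ^ #A) = C ((-1 : ℂ) ^ #A) := by simp
    rw [hc, derivative_C_mul, ← mul_assoc, mul_comm (1 + X) (C _), mul_assoc, hTterm]
    simp only [C_mul, C_sub]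
    ring
  rw [← hl, auxT, poly_split, derivative_add, mul_add, hTterm]
  ring

theorem auxT_natDegree (hm : G.minDegree ≤ #G.edgeFinset) :
    (auxT G).natDegree ≤ #G.edgeFinset - G.minDegree := by
  rw [auxT_eq]
  refine natDegree_sum_le_of_forall_le _ _ fun A hA => ?_
  have hA' : A.Nonempty := nonempty_iff_ne_empty.mpr (mem_erase.mp hA).1
  have h1 := card_away_add G A hA'
  have h2 := natDegree_term G A ((-1) ^ #A * ((#(away G A) : ℂ) - #G.edgeFinset))
  omega

variable {G}

lemma card_away_tch (A : Finset V) : #(away G A) + #(tch G A) = #G.edgeFinset := by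
  rw [← card_union_of_disjoint]
  · congr 1
    ext e
    simp only [away, tch, mem_union, mem_filter]
    constructor
    · rintro (h | h) <;> exact h.1
    · intro h
      by_cases h' : ∃ v ∈ A, v ∈ e
      · exact Or.inr ⟨h, h'⟩
      · push Not at h'
        exact Or.inl ⟨h, h'⟩
  · rw [disjoint_left]
    intro e he he'
    obtain ⟨-, v, hv, hve⟩ := mem_tch.1 he'
    exact (mem_filter.1 he).2 v hv hve

lemma coeff_one_add_X_pow_self (k j : ℕ) (h : k ≤ j) :
    ((1 + X : ℂ[X]) ^ k).coeff j = if k = j then 1 else 0 := by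
  split_ifs with h'
  · subst h'
    rw [coeff_one_add_X_pow]
    simp
  · rw [coeff_eq_zero_of_natDegree_lt]
    rw [natDegree_one_add_X_pow]
    omega

/-- the coefficient of `X ^ (m - 2)` -/
theorem auxT_coeff (hG : G.Connected) (hd : ∀ v, 2 ≤ G.degree v) (hn : 3 ≤ Fintype.card V)
    (hm : Fintype.card V ≤ #G.edgeFinset) :
    (auxT G).coeff (#G.edgeFinset - 2) = 2 * (n2 G univ : ℂ) := by
  rw [auxT_eq, finsetSum_coeff]
  have hle : ∀ A ∈ (univ : Finset (Finset V)).erase ∅, #(away G A) ≤ #G.edgeFinset - 2 ∧
      (#(away G A) = #G.edgeFinset - 2 → ∃ v, A = {v} ∧ G.degree v = 2) := by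
    intro A hA
    have hA' : A.Nonempty := nonempty_iff_ne_empty.mpr (mem_erase.mp hA).1
    have h1 := card_away_tch (G := G) A
    by_cases hAu : A = univ
    · have h2 : away G A = ∅ := by
        rw [away, filter_eq_empty_iff]
        intro e he h
        induction e with
        | h x y => exact h x (by rw [hAu]; exact mem_univ x) (by simp)
      rw [h2, card_empty]
      refine ⟨by omega, fun h => ?_⟩
      omega
    · have h2 := tch_card hG hd A hA' hAu
      have h3 := card_pos.2 hA'
      refine ⟨by omega, fun h => ?_⟩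
      have h4 : #A = 1 := by omega
      obtain ⟨v, rfl⟩ := card_eq_one.1 h4
      rw [tch_singleton] at h1
      exact ⟨v, rfl, by omega⟩
  have hterm : ∀ A ∈ (univ : Finset (Finset V)).erase ∅,
      (C ((-1) ^ #A * ((#(away G A) : ℂ) - #G.edgeFinset)) * (1 + X) ^ #(away G A)).coeff
        (#G.edgeFinset - 2) =
      if A ∈ ({v : V | G.degree v = 2} : Finset V).image (fun v => ({v} : Finset V)) then 2 else 0 := by
    intro A hA
    obtain ⟨h1, h2⟩ := hle A hA
    rw [coeff_C_mul, coeff_one_add_X_pow_self _ _ h1]
    by_cases h3 : #(away G A) = #G.edgeFinset - 2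
    · obtain ⟨v, rfl, hv⟩ := h2 h3
      rw [if_pos h3, if_pos (mem_image.2 ⟨v, by simp [hv], rfl⟩), h3, card_singleton]
      have : 2 ≤ #G.edgeFinset := by omega
      push_cast [Nat.cast_sub this]
      ring
    · rw [if_neg h3, if_neg, mul_zero]
      intro h4
      obtain ⟨v, hv, rfl⟩ := mem_image.1 h4
      have h5 := card_away_tch (G := G) {v}
      rw [tch_singleton, (by simpa using hv : G.degree v = 2)] at h5
      omega
  rw [sum_congr rfl hterm, ← sum_filter, sum_const, nsmul_eq_mul, mul_comm]
  congr 2
  have : ((univ : Finset (Finset V)).erase ∅).filter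
      (fun A => A ∈ ({v : V | G.degree v = 2} : Finset V).image (fun v => ({v} : Finset V))) =
      ({v : V | G.degree v = 2} : Finset V).image (fun v => ({v} : Finset V)) := by
    ext A
    rw [mem_filter]
    refine ⟨fun h => h.2, fun h => ⟨?_, h⟩⟩
    obtain ⟨v, -, rfl⟩ := mem_image.1 h
    rw [mem_erase]
    exact ⟨(singleton_nonempty v).ne_empty, mem_univ _⟩
  rw [this, card_image_of_injective _ singleton_injective]
  rfl

/-- value at `-1` for five vertices and six edges -/
theorem five (hd : ∀ v, 2 ≤ G.degree v) (h5 : Fintype.card V = 5) (h6 : #G.edgeFinset = 6) :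
    ∃ t : ℕ, (edgeCoverPoly G).eval (-1) = t := by
  have h0 : (edgeCoverPoly G).eval (-1) =
      ∑ A ∈ (univ : Finset V).powerset, (-1 : ℂ) ^ #A * 0 ^ #(away G A) := by
    rw [poly_incl_excl, eval_finsetSum, powerset_univ]
    refine sum_congr rfl fun A _ => ?_
    simp
  rw [h0, sum_powerset, card_univ, h5]
  -- size 0
  have e0 : ∑ A ∈ powersetCard 0 (univ : Finset V), (-1 : ℂ) ^ #A * 0 ^ #(away G A) = 0 := by
    rw [powersetCard_zero, sum_singleton, away_empty, h6]
    simp
  have e1 : ∑ A ∈ powersetCard 1 (univ : Finset V), (-1 : ℂ) ^ #A * 0 ^ #(away G A) = 0 := by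
    refine sum_eq_zero fun A hA => ?_
    obtain ⟨v, rfl⟩ := card_eq_one.1 (mem_powersetCard.1 hA).2
    have h1 := card_away_tch (G := G) {v}
    rw [tch_singleton] at h1
    have h2 := G.degree_lt_card_verts v
    rw [zero_pow (by omega), mul_zero]
  have e2 : ∑ A ∈ powersetCard 2 (univ : Finset V), (-1 : ℂ) ^ #A * 0 ^ #(away G A) =
      (#{A ∈ powersetCard 2 (univ : Finset V) | away G A = ∅} : ℕ) := by
    rw [card_filter, Nat.cast_sum]
    refine sum_congr rfl fun A hA => ?_
    rw [(mem_powersetCard.1 hA).2]
    split_ifs with h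
    · rw [h]; simp
    · rw [← card_eq_zero] at h
      rw [zero_pow h]; simp
  have e3 : ∑ A ∈ powersetCard 3 (univ : Finset V), (-1 : ℂ) ^ #A * 0 ^ #(away G A) =
      - (#{A ∈ powersetCard 3 (univ : Finset V) | away G A = ∅} : ℕ) := by
    rw [card_filter, Nat.cast_sum, ← sum_neg_distrib]
    refine sum_congr rfl fun A hA => ?_
    rw [(mem_powersetCard.1 hA).2]
    split_ifs with h
    · rw [h]; norm_num
    · rw [← card_eq_zero] at h
      rw [zero_pow h]; simp
  have e4 : ∑ A ∈ powersetCard 4 (univ : Finset V), (-1 : ℂ) ^ #A * 0 ^ #(away G A) = 5 := by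
    have : ∀ A ∈ powersetCard 4 (univ : Finset V), (-1 : ℂ) ^ #A * 0 ^ #(away G A) = 1 := by
      intro A hA
      have hA4 := (mem_powersetCard.1 hA).2
      have h1 : away G A = ∅ := by
        rw [away, filter_eq_empty_iff]
        intro e he h
        induction e with
        | h x y =>
          rw [SimpleGraph.mem_edgeFinset] at he
          have hxy : x ≠ y := (show G.Adj x y from he).ne
          have hx : x ∉ A := fun hx => h x hx (by simp)
          have hy : y ∉ A := fun hy => h y hy (by simp)
          have h2 : #(insert x (insert y A)) = 6 := by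
            rw [card_insert_of_notMem, card_insert_of_notMem hy, hA4]
            simp [hxy, hx]
          have h3 := card_le_univ (insert x (insert y A))
          omega
      rw [hA4, h1]; norm_num
    rw [sum_congr rfl this, sum_const, card_powersetCard, card_univ, h5]
    norm_num [Nat.choose]
  have e5 : ∑ A ∈ powersetCard 5 (univ : Finset V), (-1 : ℂ) ^ #A * 0 ^ #(away G A) = -1 := by
    have h1 : powersetCard 5 (univ : Finset V) = {univ} := by
      rw [← h5, ← card_univ, powersetCard_self]
    have h2 : away G univ = ∅ := by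
      rw [away, filter_eq_empty_iff]
      intro e he h
      induction e with
      | h x y => exact h x (mem_univ x) (by simp)
    rw [h1, sum_singleton, h2, card_univ, h5]; norm_num
  have hx3 : #{A ∈ powersetCard 3 (univ : Finset V) | away G A = ∅} ≤ 4 := by
    have h1 : #{A ∈ powersetCard 3 (univ : Finset V) | away G A = ∅} +
        #{A ∈ powersetCard 3 (univ : Finset V) | ¬ away G A = ∅} = 10 := by
      rw [card_filter_add_card_filter_not, card_powersetCard, card_univ, h5]
      rfl
    have h2 : #G.edgeFinset ≤ #{A ∈ powersetCard 3 (univ : Finset V) | ¬ away G A = ∅} := by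
      apply card_le_card_of_injOn (fun e => ({v | v ∉ e} : Finset V))
      · intro e he
        induction e with
        | h x y =>
          have he' := mem_coe.1 he
          rw [SimpleGraph.mem_edgeFinset] at he'
          have hxy : x ≠ y := (show G.Adj x y from he').ne
          have h3 : ({v | v ∉ s(x, y)} : Finset V) = univ \ {x, y} := by
            ext v; simp
          refine mem_coe.2 (mem_filter.2 ⟨mem_powersetCard.2 ⟨subset_univ _, ?_⟩, ?_⟩)
          · simp only [h3]
            rw [card_sdiff_of_subset (subset_univ _), card_univ, h5, card_pair hxy]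
          · refine nonempty_iff_ne_empty.1 ⟨s(x, y), mem_filter.2 ⟨mem_coe.1 he, ?_⟩⟩
            intro v hv
            exact (mem_filter.1 hv).2
      · intro e he e' he' h
        have h3 : ∀ v, v ∈ e ↔ v ∈ e' := by
          intro v
          have h4 : v ∈ ({v | v ∉ e} : Finset V) ↔ v ∈ ({v | v ∉ e'} : Finset V) := by
            simp only at h
            rw [h]
          simp only [mem_filter, mem_univ, true_and] at h4
          exact not_iff_not.1 h4
        exact Sym2.ext h3
    omega
  obtain ⟨x, hx⟩ : ∃ x, x = #{A ∈ powersetCard 3 (univ : Finset V) | away G A = ∅} := ⟨_, rfl⟩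
  obtain ⟨y, hy⟩ : ∃ y, y = #{A ∈ powersetCard 2 (univ : Finset V) | away G A = ∅} := ⟨_, rfl⟩
  rw [← hx] at e3 hx3
  rw [← hy] at e2
  refine ⟨y + (4 - x), ?_⟩
  rw [sum_range_succ, sum_range_succ, sum_range_succ, sum_range_succ, sum_range_succ,
    sum_range_one, e0, e1, e2, e3, e4, e5]
  push_cast [Nat.cast_sub hx3]
  ring

end Pool.Agent.L0h68.EC
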