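import Pool.Agent.L0h68.EC.Count

set_option autoImplicit false
set_option linter.unusedSectionVars false
set_option linter.unusedVariables false

namespace Pool.Agent.L0h68.EC

open Finset Pool.Agent.Results.MP_a87573_co.DistinctRoots

variable {V : Type} [Fintype V] [DecidableEq V] {G : SimpleGraph V} [DecidableRel G.Adj]

/-- degree-two vertices in `O` -/
def n2 (G : SimpleGraph V) [DecidableRel G.Adj] (O : Finset V) : ℕ := #{v ∈ O | G.degree v = 2}

lemma tch_disj {A : Finset V} {F : Finset (Finset V)} (hp : Part G A F) :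
    ∀ O ∈ F, ∀ O' ∈ F, O ≠ O' → Disjoint (tch G O) (tch G O') := by
  intro O hO O' hO' hne
  rw [disjoint_left]
  intro e he he'
  obtain ⟨h1, x, hx, hxe⟩ := mem_tch.1 he
  obtain ⟨-, y, hy, hye⟩ := mem_tch.1 he'
  have hd := disjoint_left.1 (hp.disj O hO O' hO' hne)
  by_cases hxy : x = y
  · subst hxy; exact hd hx hy
  · have he2 : e = s(x, y) := (Sym2.mem_and_mem_iff hxy).1 ⟨hxe, hye⟩
    have hadj : G.Adj x y := by
      rw [he2, SimpleGraph.mem_edgeFinset] at h1
      exact h1
    rcases hp.clos O hO x hx y hadj with h | h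
    · exact hd h hy
    · have : y ∈ F.biUnion id := mem_biUnion.2 ⟨O', hO', hy⟩
      rw [hp.cov, mem_sdiff] at this
      exact this.2 h

lemma part_sum {A : Finset V} {F : Finset (Finset V)} (hp : Part G A F) :
    ∑ O ∈ F, #O + #A = Fintype.card V := by
  have hucard : #(F.biUnion id) = ∑ O ∈ F, #O := by
    rw [card_biUnion]
    · rfl
    · intro O hO O' hO' hne
      exact hp.disj O hO O' hO' hne
  rw [← hucard, hp.cov, card_sdiff_of_subset (subset_univ _), card_univ]
  have e4 : #A ≤ Fintype.card V := card_le_univ A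
  omega

lemma part_ne_univ {A : Finset V} {F : Finset (Finset V)} (hp : Part G A F) (hA : A.Nonempty) :
    ∀ O ∈ F, O ≠ univ := by
  intro O hO h
  obtain ⟨a, ha⟩ := hA
  have : a ∈ F.biUnion id := mem_biUnion.2 ⟨O, hO, by rw [h]; exact mem_univ a⟩
  rw [hp.cov, mem_sdiff] at this
  exact this.2 ha

lemma part_edges (hG : G.Connected) (hd : ∀ v, 2 ≤ G.degree v)
    {A : Finset V} {F : Finset (Finset V)} (hp : Part G A F) (hA : A.Nonempty) :
    Fintype.card V + #F ≤ #G.edgeFinset + #A := by
  have h1 : #(F.biUnion (tch G)) = ∑ O ∈ F, #(tch G O) := by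
    rw [card_biUnion]
    intro O hO O' hO' hne
    exact tch_disj hp O hO O' hO' hne
  have h2 : #(F.biUnion (tch G)) ≤ #G.edgeFinset := by
    apply card_le_card
    intro e he
    obtain ⟨O, -, hO⟩ := mem_biUnion.1 he
    exact (mem_tch.1 hO).1
  have h3 : ∑ O ∈ F, (#O + 1) ≤ ∑ O ∈ F, #(tch G O) :=
    sum_le_sum fun O hO => tch_card hG hd O (hp.ne O hO) (part_ne_univ hp hA O hO)
  rw [sum_add_distrib, ← card_eq_sum_ones] at h3
  have := part_sum hp
  omega

lemma barrier_nonempty (hG : G.Connected) {A : Finset V} {F : Finset (Finset V)} (hp : Part G A F)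
    {k : ℕ} (h2 : Fintype.card V + 2 ≤ 2 * k) (h : #A + 2 * k ≤ #F + Fintype.card V) :
    A.Nonempty := by
  by_contra hA
  rw [not_nonempty_iff_eq_empty] at hA
  subst hA
  have hF : ∀ O ∈ F, O = univ := by
    intro O hO
    by_contra hne
    obtain ⟨e, he⟩ := card_pos.1 (bd_nonempty hG O (hp.ne O hO) hne)
    obtain ⟨h1, y, hy, hye⟩ := mem_filter.1 he
    obtain ⟨h3, x, hx, hxe⟩ := mem_tch.1 h1
    have hxy : x ≠ y := by rintro rfl; exact hy hx
    have he2 : e = s(x, y) := (Sym2.mem_and_mem_iff hxy).1 ⟨hxe, hye⟩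
    have hadj : G.Adj x y := by
      rw [he2, SimpleGraph.mem_edgeFinset] at h3
      exact h3
    rcases hp.clos O hO x hx y hadj with h | h
    · exact hy h
    · simp at h
  have : #F ≤ 1 := by
    rw [card_le_one]
    intro a ha b hb
    rw [hF a ha, hF b hb]
  rw [card_empty] at h
  omega

lemma tch_singleton (v : V) : #(tch G {v}) = G.degree v := by
  rw [← SimpleGraph.card_incidenceFinset_eq_degree]
  congr 1
  ext e
  rw [SimpleGraph.mem_incidenceFinset, mem_tch, SimpleGraph.mem_edgeFinset]
  constructor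
  · rintro ⟨h, w, hw, h'⟩
    rw [mem_singleton] at hw
    subst hw
    exact ⟨h, h'⟩
  · rintro ⟨h, h'⟩; exact ⟨h, v, mem_singleton_self v, h'⟩

lemma n2_ge (hd : ∀ v, 2 ≤ G.degree v) (O : Finset V) (ht : #(tch G O) = #O + 1) :
    #O + #(bd G O) ≤ n2 G O + 2 := by
  have h1 := sum_deg (G := G) O
  have h2 : 3 * #O ≤ ∑ v ∈ O, G.degree v + n2 G O := by
    unfold n2
    rw [card_filter, ← sum_add_distrib, mul_comm, ← smul_eq_mul, ← sum_const]
    refine sum_le_sum fun v _ => ?_
    have := hd v
    split_ifs with h <;> omega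
  omega

/-- the possible coverings of the vertices of `O` by edges meeting `O` -/
def loc (G : SimpleGraph V) [DecidableRel G.Adj] (O : Finset V) : Finset (Finset (Sym2 V)) :=
  {S ∈ (tch G O).powerset | ∀ v ∈ O, ∃ e ∈ S, v ∈ e}

lemma loc_one (O : Finset V) (h1 : #O = 1) (ht : #(tch G O) = 2) : #(loc G O) ≤ 3 := by
  have : loc G O ⊆ (tch G O).powerset.erase ∅ := by
    intro S hS
    obtain ⟨h2, h3⟩ := mem_filter.1 hS
    refine mem_erase.2 ⟨?_, h2⟩
    rintro rfl
    obtain ⟨v, hv⟩ := card_pos.1 (by omega : 0 < #O)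
    obtain ⟨e, he, -⟩ := h3 v hv
    simp at he
  refine (card_le_card this).trans ?_
  rw [card_erase_of_mem (empty_mem_powerset _), card_powerset, ht]
  norm_num

lemma loc_three (hG : G.Connected) (hd : ∀ v, 2 ≤ G.degree v) (O : Finset V) (hne : O ≠ univ)
    (h3 : #O = 3) (h2 : n2 G O = 2) (ht : #(tch G O) = 4) : #(loc G O) ≤ 9 := by
  have hb1 := bd_nonempty hG O (card_pos.1 (by omega)) hne
  have hb2 := n2_ge hd O (by omega)
  have hbd : #(bd G O) = 1 := by omega
  -- the two vertices of degree two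
  obtain ⟨u, v, huv, huvO⟩ := card_eq_two.1 (show #{v ∈ O | G.degree v = 2} = 2 from h2)
  have hu : u ∈ O ∧ G.degree u = 2 := by
    have : u ∈ ({v ∈ O | G.degree v = 2} : Finset V) := by rw [huvO]; simp
    exact mem_filter.1 this
  have hv : v ∈ O ∧ G.degree v = 2 := by
    have : v ∈ ({v ∈ O | G.degree v = 2} : Finset V) := by rw [huvO]; simp
    exact mem_filter.1 this
  obtain ⟨w, hw, hwu⟩ : ∃ w ∈ O, w ∉ ({u, v} : Finset V) := by
    by_contra h
    push Not at h
    have := card_le_card (show O ⊆ {u, v} from h)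
    rw [card_pair huv] at this
    omega
  have hwu' : w ≠ u ∧ w ≠ v := by
    simp only [mem_insert, mem_singleton, not_or] at hwu
    exact hwu
  have hO : O = {w, u, v} := by
    symm
    apply eq_of_subset_of_card_le
    · intro x hx
      simp only [mem_insert, mem_singleton] at hx
      rcases hx with rfl | rfl | rfl
      · exact hw
      · exact hu.1
      · exact hv.1
    · rw [h3, card_insert_of_notMem (by simpa using hwu'), card_pair huv]
  have hwd : 3 ≤ G.degree w := by
    have h4 : w ∉ ({v ∈ O | G.degree v = 2} : Finset V) := by rw [huvO]; exact hwu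
    have h5 := hd w
    have h6 : G.degree w ≠ 2 := fun h => h4 (mem_filter.2 ⟨hw, h⟩)
    omega
  -- the boundary edge
  obtain ⟨y, hwy, hyO⟩ : ∃ y, G.Adj w y ∧ y ∉ O := by
    by_contra h
    push Not at h
    have h4 : G.neighborFinset w ⊆ {u, v} := by
      intro x hx
      rw [SimpleGraph.mem_neighborFinset] at hx
      have h5 := h x hx
      rw [hO] at h5
      simp only [mem_insert, mem_singleton] at h5 ⊢
      rcases h5 with rfl | h5
      · exact absurd hx (G.irrefl)
      · exact h5
    have := card_le_card h4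
    rw [card_pair huv, SimpleGraph.card_neighborFinset_eq_degree] at this
    omega
  have hbw : s(w, y) ∈ bd G O := by
    refine mem_filter.2 ⟨mem_tch.2 ⟨?_, w, hw, by simp⟩, y, hyO, by simp⟩
    rw [SimpleGraph.mem_edgeFinset]; exact hwy
  have hbu : ∀ x ∈ O, x ≠ w → ∀ z, G.Adj x z → z ∈ O := by
    intro x hx hxw z hxz
    by_contra hz
    have : s(x, z) ∈ bd G O := by
      refine mem_filter.2 ⟨mem_tch.2 ⟨?_, x, hx, by simp⟩, z, hz, by simp⟩
      rw [SimpleGraph.mem_edgeFinset]; exact hxz
    have h4 := card_le_one.1 hbd.le _ this _ hbw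
    rw [Sym2.eq_iff] at h4
    rcases h4 with ⟨h5, -⟩ | ⟨h5, -⟩
    · exact hxw h5
    · exact hyO (h5 ▸ hx)
  have hnu : G.neighborFinset u = {w, v} := by
    apply eq_of_subset_of_card_le
    · intro x hx
      rw [SimpleGraph.mem_neighborFinset] at hx
      have h5 := hbu u hu.1 hwu'.1.symm x hx
      rw [hO] at h5
      simp only [mem_insert, mem_singleton] at h5 ⊢
      rcases h5 with h5 | rfl | h5
      · exact Or.inl h5
      · exact absurd hx (G.irrefl)
      · exact Or.inr h5
    · rw [SimpleGraph.card_neighborFinset_eq_degree, hu.2]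
      exact card_le_two
  have hnv : G.neighborFinset v = {w, u} := by
    apply eq_of_subset_of_card_le
    · intro x hx
      rw [SimpleGraph.mem_neighborFinset] at hx
      have h5 := hbu v hv.1 hwu'.2.symm x hx
      rw [hO] at h5
      simp only [mem_insert, mem_singleton] at h5 ⊢
      rcases h5 with h5 | h5 | rfl
      · exact Or.inl h5
      · exact Or.inr h5
      · exact absurd hx (G.irrefl)
    · rw [SimpleGraph.card_neighborFinset_eq_degree, hv.2]
      exact card_le_two
  have auv : G.Adj u v := by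
    rw [← SimpleGraph.mem_neighborFinset, hnu]; simp
  have auw : G.Adj u w := by
    rw [← SimpleGraph.mem_neighborFinset, hnu]; simp
  have avw : G.Adj v w := by
    rw [← SimpleGraph.mem_neighborFinset, hnv]; simp
  have hyw : y ≠ w := hwy.ne.symm
  have hyu : y ≠ u := by rintro rfl; exact hyO hu.1
  have hyv : y ≠ v := by rintro rfl; exact hyO hv.1
  have hT : tch G O = {s(u, v), s(w, u), s(w, v), s(w, y)} := by
    symm
    apply eq_of_subset_of_card_le
    · intro e he
      simp only [mem_insert, mem_singleton] at he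
      rw [mem_tch, SimpleGraph.mem_edgeFinset]
      rcases he with rfl | rfl | rfl | rfl
      · exact ⟨auv, u, hu.1, by simp⟩
      · exact ⟨auw.symm, u, hu.1, by simp⟩
      · exact ⟨avw.symm, v, hv.1, by simp⟩
      · exact ⟨hwy, w, hw, by simp⟩
    · rw [ht, card_insert_of_notMem, card_insert_of_notMem, card_pair]
      · intro h
        rw [Sym2.eq_iff] at h
        rcases h with ⟨-, h⟩ | ⟨h, -⟩
        · exact hyv h.symm
        · exact hyw h.symm
      · simp only [mem_insert, mem_singleton, Sym2.eq_iff, not_or]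
        refine ⟨⟨fun h => huv h.2, fun h => hwu'.2 h.1⟩, ⟨fun h => hyu h.2.symm, fun h => hyw h.1.symm⟩⟩
      · simp only [mem_insert, mem_singleton, Sym2.eq_iff, not_or]
        refine ⟨⟨fun h => hwu'.1 h.1.symm, fun h => hwu'.2 h.2.symm⟩,
          ⟨fun h => hwu'.1 h.1.symm, fun h => hwu'.2 h.2.symm⟩,
          ⟨fun h => hwu'.1 h.1.symm, fun h => hwu'.2 h.2.symm⟩⟩
  let f : Finset (Sym2 V) → Bool × Bool × Bool × Bool := fun S =>
    (decide (s(u, v) ∈ S), decide (s(w, u) ∈ S), decide (s(w, v) ∈ S), decide (s(w, y) ∈ S))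
  let P : Finset (Bool × Bool × Bool × Bool) :=
    univ.filter fun b => (b.1 || b.2.1) && (b.1 || b.2.2.1) && (b.2.1 || b.2.2.1 || b.2.2.2)
  have hP : #P = 9 := by decide
  rw [← hP]
  apply card_le_card_of_injOn f
  · intro S hS
    obtain ⟨h4, h5⟩ := mem_filter.1 (mem_coe.1 hS)
    rw [mem_powerset, hT] at h4
    have hu1 : s(u, v) ∈ S ∨ s(w, u) ∈ S := by
      obtain ⟨e, he, hue⟩ := h5 u hu.1
      have h6 := h4 he
      simp only [mem_insert, mem_singleton] at h6
      rcases h6 with rfl | rfl | rfl | rfl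
      · exact Or.inl he
      · exact Or.inr he
      · rw [Sym2.mem_iff] at hue
        rcases hue with h | h
        · exact absurd h.symm hwu'.1
        · exact absurd h huv
      · rw [Sym2.mem_iff] at hue
        rcases hue with h | h
        · exact absurd h.symm hwu'.1
        · exact absurd h.symm hyu
    have hv1 : s(u, v) ∈ S ∨ s(w, v) ∈ S := by
      obtain ⟨e, he, hue⟩ := h5 v hv.1
      have h6 := h4 he
      simp only [mem_insert, mem_singleton] at h6
      rcases h6 with rfl | rfl | rfl | rfl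
      · exact Or.inl he
      · rw [Sym2.mem_iff] at hue
        rcases hue with h | h
        · exact absurd h.symm hwu'.2
        · exact absurd h.symm huv
      · exact Or.inr he
      · rw [Sym2.mem_iff] at hue
        rcases hue with h | h
        · exact absurd h.symm hwu'.2
        · exact absurd h.symm hyv
    have hw1 : (s(w, u) ∈ S ∨ s(w, v) ∈ S) ∨ s(w, y) ∈ S := by
      obtain ⟨e, he, hue⟩ := h5 w hw
      have h6 := h4 he
      simp only [mem_insert, mem_singleton] at h6
      rcases h6 with rfl | rfl | rfl | rfl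
      · rw [Sym2.mem_iff] at hue
        rcases hue with h | h
        · exact absurd h hwu'.1
        · exact absurd h hwu'.2
      · exact Or.inl (Or.inl he)
      · exact Or.inl (Or.inr he)
      · exact Or.inr he
    refine mem_coe.2 (mem_filter.2 ⟨mem_univ _, ?_⟩)
    simp only [f, Bool.and_eq_true, Bool.or_eq_true, decide_eq_true_eq]
    exact ⟨⟨hu1, hv1⟩, hw1⟩
  · intro S hS S' hS' hf
    obtain ⟨h4, -⟩ := mem_filter.1 (mem_coe.1 hS)
    obtain ⟨h4', -⟩ := mem_filter.1 (mem_coe.1 hS')
    rw [mem_powerset, hT] at h4 h4'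
    simp only [f, Prod.mk.injEq, decide_eq_decide] at hf
    obtain ⟨e1, e2, e3, e4⟩ := hf
    ext e
    constructor
    · intro he
      have h6 := h4 he
      simp only [mem_insert, mem_singleton] at h6
      rcases h6 with rfl | rfl | rfl | rfl
      · exact e1.1 he
      · exact e2.1 he
      · exact e3.1 he
      · exact e4.1 he
    · intro he
      have h6 := h4' he
      simp only [mem_insert, mem_singleton] at h6
      rcases h6 with rfl | rfl | rfl | rfl
      · exact e1.2 he
      · exact e2.2 he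
      · exact e3.2 he
      · exact e4.2 he

/-- The main strict inequality. -/
theorem covers_lt (hG : G.Connected) (hd : ∀ v, 2 ≤ G.degree v) (M : ℕ)
    (hm : #G.edgeFinset = 2 * M) (hn2 : n2 G univ = M)
    (hk : ∀ S ⊆ G.edgeFinset, IsEdgeCovering S → M ≤ #S) (h2 : Fintype.card V + 2 ≤ 2 * M) :
    #{S ∈ G.edgeFinset.powerset | IsEdgeCovering S} < 3 ^ M := by
  obtain ⟨A, F, hp, hor⟩ := barrier hd M hk h2
  have hA : A.Nonempty := by
    apply barrier_nonempty hG hp h2
    rcases hor with h | h <;> omega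
  have hE := part_edges hG hd hp hA
  have hodd : ∀ O ∈ F, Odd #O := by
    rcases hor with h | h
    · exact h.1
    · omega
  have hcard : Fintype.card V + #F = 2 * M + #A := by
    rcases hor with h | h <;> omega
  have hps := part_sum hp
  -- equality in the edge count
  have h1 : #(F.biUnion (tch G)) = ∑ O ∈ F, #(tch G O) := by
    rw [card_biUnion]
    intro O hO O' hO' hne
    exact tch_disj hp O hO O' hO' hne
  have hsub : F.biUnion (tch G) ⊆ G.edgeFinset := by
    intro e he
    obtain ⟨O, -, hO⟩ := mem_biUnion.1 he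
    exact (mem_tch.1 hO).1
  have h3 : ∀ O ∈ F, #O + 1 ≤ #(tch G O) :=
    fun O hO => tch_card hG hd O (hp.ne O hO) (part_ne_univ hp hA O hO)
  have hsum1 : ∑ O ∈ F, (#O + 1) = 2 * M := by
    rw [sum_add_distrib, ← card_eq_sum_ones]
    omega
  have hle := card_le_card hsub
  have hteq : ∀ O ∈ F, #O + 1 = #(tch G O) := by
    apply (sum_eq_sum_iff_of_le h3).1
    have := sum_le_sum h3
    omega
  have hcov : F.biUnion (tch G) = G.edgeFinset := by
    apply eq_of_subset_of_card_le hsub
    rw [h1, ← sum_congr rfl hteq, hsum1, hm]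
  -- degree two vertices
  have h4 : ∀ O ∈ F, #O + 1 ≤ 2 * n2 G O := by
    intro O hO
    have h5 := n2_ge hd O (hteq O hO).symm
    have h6 := bd_nonempty hG O (hp.ne O hO) (part_ne_univ hp hA O hO)
    obtain ⟨j, hj⟩ := hodd O hO
    by_cases hj0 : j = 0
    · have h7 : #O = 1 := by omega
      obtain ⟨v, hv⟩ := card_eq_one.1 h7
      have h8 := hteq O hO
      rw [hv, tch_singleton, card_singleton] at h8
      have : n2 G O = 1 := by
        unfold n2
        rw [hv, filter_singleton, if_pos h8.symm, card_singleton]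
      omega
    · omega
  have h5 : ∑ O ∈ F, n2 G O ≤ M := by
    rw [← hn2]
    have : ∑ O ∈ F, n2 G O = #(F.biUnion fun O => {v ∈ O | G.degree v = 2}) := by
      rw [card_biUnion]
      · rfl
      · intro O hO O' hO' hne
        exact (hp.disj O hO O' hO' hne).mono (filter_subset _ _) (filter_subset _ _)
    rw [this]
    apply card_le_card
    intro v hv
    obtain ⟨O, -, hO⟩ := mem_biUnion.1 hv
    exact mem_filter.2 ⟨mem_univ _, (mem_filter.1 hO).2⟩
  have h6 : ∑ O ∈ F, 2 * n2 G O = 2 * ∑ O ∈ F, n2 G O := by rw [mul_sum]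
  have h7 := sum_le_sum h4
  have h8 : ∀ O ∈ F, #O + 1 = 2 * n2 G O := by
    apply (sum_eq_sum_iff_of_le h4).1
    omega
  have hn2sum : ∑ O ∈ F, n2 G O = M := by
    have := sum_congr rfl h8
    omega
  -- local coverings
  have hloc : ∀ O ∈ F, #(loc G O) ≤ 3 ^ n2 G O := by
    intro O hO
    have e1 := n2_ge hd O (hteq O hO).symm
    have e2 := bd_nonempty hG O (hp.ne O hO) (part_ne_univ hp hA O hO)
    have e3 := h8 O hO
    have e4 := hteq O hO
    obtain ⟨j, hj⟩ := hodd O hO
    have hj1 : j = 0 ∨ j = 1 := by omega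
    rcases hj1 with rfl | rfl
    · have : n2 G O = 1 := by omega
      rw [this, pow_one]
      exact loc_one O (by omega) (by omega)
    · have : n2 G O = 2 := by omega
      rw [this]
      exact loc_three hG hd O (part_ne_univ hp hA O hO) (by omega) this (by omega)
  -- the product
  obtain ⟨a, ha⟩ := hA
  have hlt : #{S ∈ G.edgeFinset.powerset | IsEdgeCovering S} < #(F.pi fun O => loc G O) := by
    let φ : Finset (Sym2 V) → (∀ O ∈ F, Finset (Sym2 V)) := fun S O _ => S ∩ tch G O
    have hinj : Set.InjOn φ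
        (({S ∈ G.edgeFinset.powerset | IsEdgeCovering S} : Finset (Finset (Sym2 V))) : Set _) := by
      intro S hS S' hS' hφ
      obtain ⟨h9, -⟩ := mem_filter.1 (mem_coe.1 hS)
      obtain ⟨h9', -⟩ := mem_filter.1 (mem_coe.1 hS')
      rw [mem_powerset, ← hcov] at h9 h9'
      ext e
      constructor
      · intro he
        obtain ⟨O, hO, heO⟩ := mem_biUnion.1 (h9 he)
        have : S ∩ tch G O = S' ∩ tch G O := congrFun (congrFun hφ O) hO
        have h10 : e ∈ S ∩ tch G O := mem_inter.2 ⟨he, heO⟩
        rw [this] at h10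
        exact (mem_inter.1 h10).1
      · intro he
        obtain ⟨O, hO, heO⟩ := mem_biUnion.1 (h9' he)
        have : S ∩ tch G O = S' ∩ tch G O := congrFun (congrFun hφ O) hO
        have h10 : e ∈ S' ∩ tch G O := mem_inter.2 ⟨he, heO⟩
        rw [← this] at h10
        exact (mem_inter.1 h10).1
    rw [← card_image_of_injOn hinj]
    apply card_lt_card
    rw [ssubset_iff_of_subset]
    · refine ⟨fun O _ => {e ∈ tch G O | a ∉ e}, ?_, ?_⟩
      · rw [mem_pi]
        intro O hO
        refine mem_filter.2 ⟨mem_powerset.2 (filter_subset _ _), ?_⟩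
        intro v hv
        have hva : v ≠ a := by
          rintro rfl
          have : v ∈ F.biUnion id := mem_biUnion.2 ⟨O, hO, hv⟩
          rw [hp.cov, mem_sdiff] at this
          exact this.2 ha
        have h11 : 0 < #((G.neighborFinset v).erase a) := by
          have h12 := hd v
          rw [← SimpleGraph.card_neighborFinset_eq_degree] at h12
          have h13 := pred_card_le_card_erase (s := G.neighborFinset v) (a := a)
          omega
        obtain ⟨z, hz⟩ := card_pos.1 h11
        rw [mem_erase, SimpleGraph.mem_neighborFinset] at hz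
        refine ⟨s(v, z), mem_filter.2 ⟨mem_tch.2 ⟨?_, v, hv, by simp⟩, ?_⟩, by simp⟩
        · rw [SimpleGraph.mem_edgeFinset]; exact hz.2
        · rw [Sym2.mem_iff, not_or]
          exact ⟨hva.symm, hz.1.symm⟩
      · intro h
        obtain ⟨S, hS, hSφ⟩ := mem_image.1 h
        obtain ⟨h9, h10⟩ := mem_filter.1 hS
        obtain ⟨e, he, hae⟩ := h10 a
        rw [mem_powerset, ← hcov] at h9
        obtain ⟨O, hO, heO⟩ := mem_biUnion.1 (h9 he)
        have : S ∩ tch G O = {e ∈ tch G O | a ∉ e} := congrFun (congrFun hSφ O) hO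
        have h11 : e ∈ S ∩ tch G O := mem_inter.2 ⟨he, heO⟩
        rw [this] at h11
        exact (mem_filter.1 h11).2 hae
    · intro g hg
      obtain ⟨S, hS, rfl⟩ := mem_image.1 hg
      obtain ⟨h9, h10⟩ := mem_filter.1 hS
      rw [mem_pi]
      intro O hO
      refine mem_filter.2 ⟨mem_powerset.2 inter_subset_right, ?_⟩
      intro v hv
      obtain ⟨e, he, hve⟩ := h10 v
      exact ⟨e, mem_inter.2 ⟨he, mem_tch.2 ⟨mem_powerset.1 h9 he, v, hv, hve⟩⟩, hve⟩
  refine lt_of_lt_of_le hlt ?_
  rw [card_pi]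
  calc ∏ O ∈ F, #(loc G O) ≤ ∏ O ∈ F, 3 ^ n2 G O := prod_le_prod' hloc
    _ = 3 ^ M := by rw [prod_pow_eq_pow_sum, hn2sum]

end Pool.Agent.L0h68.EC
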